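import Pool.Agent.H84.NT.Targets5

/-!
# Probability and dependence of the tube event with many bad blocks
-/

open MeasureTheory ProbabilityTheory
open scoped ENNReal

namespace Pool.Agent.H84.NT5

open Pool.Agent.H99.NS Pool.Agent.H22.LPP Pool.Agent.H95.INS Pool.Agent.H76.ND Pool.Agent.H95.ND
open Pool.Agent.H84.NT hiding lv two_lv

namespace INTaux

theorem wi_bd (p : ℤ) (b : ℕ) (y : ℤ) :
    0 ≤ y - (16 ^ b * wi p b y + p) ∧ y - (16 ^ b * wi p b y + p) < 16 ^ b := by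
  have hp : (0 : ℤ) < 16 ^ b := by positivity
  have h1 := Int.mul_ediv_add_emod (y - p) (16 ^ b)
  have h2 := Int.emod_nonneg (y - p) hp.ne'
  have h3 := Int.emod_lt_of_pos (y - p) hp
  unfold wi
  constructor <;> linarith

theorem wi_mono {p : ℤ} {b : ℕ} {y y' : ℤ} (h : y ≤ y') : wi p b y ≤ wi p b y' := by
  unfold wi
  exact Int.ediv_le_ediv (by positivity) (by linarith)

theorem wi_card (p : ℤ) (b : ℕ) (xc V : ℤ) (hV : 0 ≤ V) :
    ((Finset.Icc (wi p b (xc - V)) (wi p b (xc + V))).card : ℝ) ≤ 2 * V / 16 ^ b + 3 := by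
  have h1 := wi_bd p b (xc - V)
  have h2 := wi_bd p b (xc + V)
  have hmono : wi p b (xc - V) ≤ wi p b (xc + V) := wi_mono (by linarith)
  have h3 : ((Finset.Icc (wi p b (xc - V)) (wi p b (xc + V))).card : ℤ) =
      wi p b (xc + V) + 1 - wi p b (xc - V) := by
    rw [Int.card_Icc, Int.toNat_of_nonneg (by linarith)]
  have h4 : ((Finset.Icc (wi p b (xc - V)) (wi p b (xc + V))).card : ℝ) =
      (wi p b (xc + V) : ℝ) + 1 - (wi p b (xc - V) : ℝ) := by exact_mod_cast h3
  rw [h4]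
  have hp : (0 : ℝ) < 16 ^ b := by positivity
  have h5 : (16 : ℤ) ^ b * (wi p b (xc + V) - wi p b (xc - V)) ≤ 2 * V + 16 ^ b := by
    linarith [h1.2, h2.1]
  have h6 : (16 : ℝ) ^ b * ((wi p b (xc + V) : ℝ) - (wi p b (xc - V) : ℝ)) ≤
      2 * V + 16 ^ b := by exact_mod_cast h5
  have h7 : ((wi p b (xc + V) : ℝ) - (wi p b (xc - V) : ℝ)) ≤ (2 * V + 16 ^ b) / 16 ^ b := by
    rw [le_div_iff₀ hp]
    linarith
  rw [add_div, div_self hp.ne'] at h7
  linarith

end INTaux

open INTaux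

theorem pf_INT (h_FIM : T_FIM) : T_INT := by
  classical
  intro hPEI hLGD hGR Cd hCd
  obtain ⟨ε, hε, hPEI⟩ := hPEI hGR Cd hCd
  refine ⟨ε, hε, ?_⟩
  intro q b A X K B H Y p s0 n xc V hb hV hOk hLG
  set D := dat q b A K B H Y X with hD
  obtain ⟨hdep, hfin⟩ := hLGD D hOk
  have hn : 256 * D.n = 32 * 64 ^ b := by
    change (256 * (8 * 64 ^ (b - 1)) : ℤ) = _
    obtain ⟨m, rfl⟩ : ∃ m, b = m + 1 := ⟨b - 1, by omega⟩
    rw [Nat.add_sub_cancel, pow_succ]
    ring
  have hDX : D.X = X := rfl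
  rw [hn, hDX] at hdep hfin
  have hp64 : (0 : ℤ) < 64 ^ b := by positivity
  have h64 : (64 : ℤ) ^ (b + 1) = 64 * 64 ^ b := by rw [pow_succ]; ring
  -- the bad events
  set Bd : ℕ → ℤ → Env → Prop := fun l i ω =>
    ¬ LG0 D (shiftE (sb s0 b l + 32 * 64 ^ b, 16 ^ b * i + p) ω) with hBd
  have hfinz : ∀ z : Site, {x : Site | -(32 * 64 ^ b) < (x - z).1 ∧ (x - z).1 ≤ 32 * 64 ^ b ∧
      |(x - z).2| < 2 * X}.Finite := by
    intro z
    exact hfin.preimage (f := fun x : Site => x - z) (fun x _ y _ h => sub_left_injective h)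
  have hdepz : ∀ z : Site, DepOn {x : Site | -(32 * 64 ^ b) < (x - z).1 ∧
      (x - z).1 ≤ 32 * 64 ^ b ∧ |(x - z).2| < 2 * X} (fun ω => LG0 D (shiftE z ω)) := by
    intro z ω ω' h
    refine hdep _ _ fun x hx => ?_
    refine h (x + z) ?_
    simp only [Set.mem_ofPred_eq, add_sub_cancel_right]
    exact hx
  have hdepn : ∀ z : Site, DepOn {x : Site | -(32 * 64 ^ b) < (x - z).1 ∧
      (x - z).1 ≤ 32 * 64 ^ b ∧ |(x - z).2| < 2 * X} (fun ω => ¬ LG0 D (shiftE z ω)) := by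
    intro z ω ω' h
    have := hdepz z ω ω' h
    simp only at this ⊢
    rw [this]
  have hmeas : ∀ l i, MeasurableSet {ω | Bd l i ω} := fun l i =>
    h_FIM _ _ (hfinz _) (hdepn _)
  have hdepB : ∀ (l : ℕ) (i : ℤ), DepOn (slab (s0 + l * 64 ^ (b + 1))
      (s0 + (l + 1) * 64 ^ (b + 1))) (Bd l i) := by
    intro l i
    refine (hdepn _).mono ?_
    rintro x ⟨h1, h2, -⟩
    simp only [Prod.fst_sub, sb] at h1 h2
    have e1 : ((l : ℤ) + 1) * 64 ^ (b + 1) = l * 64 ^ (b + 1) + 64 ^ (b + 1) := by ring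
    refine ⟨by linarith, ?_⟩
    rw [e1]
    linarith
  have hprob : ∀ (l : ℕ) (i : ℤ), (PE q).real {ω | Bd l i ω} ≤ ε := by
    intro l i
    refine le_trans (le_of_eq ?_) hLG
    have hm0 : MeasurableSet {ω | ¬ LG0 D ω} := by
      refine h_FIM _ _ hfin ?_
      intro ω ω' h
      have := hdep ω ω' h
      simp only
      rw [this]
    rw [Measure.real, Measure.real]
    have hmp := mp_shiftE q (sb s0 b l + 32 * 64 ^ b, 16 ^ b * i + p)
    rw [← hmp.measure_preimage hm0.nullMeasurableSet]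
    rfl
  have hsbs : ∀ l : ℕ, sb s0 b (l + 1) = sb s0 b l + 64 ^ (b + 1) := by
    intro l
    unfold sb
    push_cast
    ring
  have hsb0 : sb s0 b 0 = s0 := by
    unfold sb
    push_cast
    ring
  refine ⟨?_, ?_, ?_⟩
  · -- probability
    set I := Finset.Icc (wi p b (xc - V)) (wi p b (xc + V)) with hI
    set E : ℤ → Set Env := fun i0 => {ω | ∃ x : ℕ → ℤ, x 0 = i0 ∧
      ∑ l ∈ Finset.range n, ((x (l + 1) - x l : ℤ) : ℝ) ^ 2 ≤ Cd * n ∧
      (n : ℝ) ≤ 8 * ((@Finset.filter ℕ (fun l => Bd l (x l) ω)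
        (fun l => Classical.propDecidable _) (Finset.range n)).card : ℝ) ∧ 1 ≤ n} with hE
    have hEp : ∀ i0, (PE q).real (E i0) ≤ Real.exp (-(n : ℝ)) := fun i0 =>
      hPEI q (64 ^ (b + 1)) s0 i0 n Bd (by positivity) hmeas hdepB hprob
    have hsub : {ω | InL D Cd p s0 b n xc V ω} ⊆ ⋃ i0 ∈ I, E i0 := by
      rintro ω ⟨hn1, g, hg, htube, hsum, hcard⟩
      rw [Set.mem_iUnion₂]
      refine ⟨wi p b (g s0), ?_, fun l => wi p b (g (sb s0 b l)), ?_, ?_, ?_, hn1⟩
      · rw [hI, Finset.mem_Icc]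
        have h1 := htube s0 le_rfl (by
          have : (0 : ℤ) ≤ n * 64 ^ (b + 1) := by positivity
          linarith)
        rw [abs_le] at h1
        exact ⟨wi_mono (by linarith), wi_mono (by linarith)⟩
      · simp only
        rw [hsb0]
      · refine le_trans (le_of_eq (Finset.sum_congr rfl fun l _ => ?_)) hsum
        simp only
        rw [hsbs]
        rfl
      · have e : ∀ (i1 i2 : DecidablePred fun l : ℕ => ¬ LG0 D (shiftE
            (sb s0 b l + 32 * 64 ^ b, 16 ^ b * wi p b (g (sb s0 b l)) + p) ω)),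
            (@Finset.filter _ _ i1 (Finset.range n)).card =
            (@Finset.filter _ _ i2 (Finset.range n)).card := fun i1 i2 => by
          rw [Subsingleton.elim i1 i2]
        refine hcard.trans (le_of_eq ?_)
        rw [e _ (fun _ => Classical.propDecidable _)]
    calc (PE q).real {ω | InL D Cd p s0 b n xc V ω} ≤ (PE q).real (⋃ i0 ∈ I, E i0) :=
          measureReal_mono hsub (measure_ne_top _ _)
      _ ≤ ∑ i0 ∈ I, (PE q).real (E i0) := measureReal_biUnion_finset_le _ _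
      _ ≤ ∑ i0 ∈ I, Real.exp (-(n : ℝ)) := Finset.sum_le_sum fun i _ => hEp i
      _ = I.card * Real.exp (-(n : ℝ)) := by rw [Finset.sum_const, nsmul_eq_mul]
      _ ≤ (2 * V / 16 ^ b + 3) * Real.exp (-(n : ℝ)) :=
          mul_le_mul_of_nonneg_right (wi_card p b xc V hV) (Real.exp_pos _).le
  · -- dependence
    have key : ∀ ω ω' : Env, (∀ x ∈ {x : Site | s0 < x.1 ∧ x.1 ≤ s0 + n * 64 ^ (b + 1) ∧
        |x.2 - xc| ≤ V + 16 ^ b + 2 * X}, ω x = ω' x) → InL D Cd p s0 b n xc V ω →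
        InL D Cd p s0 b n xc V ω' := by
      rintro ω ω' hag ⟨hn1, g, hg, htube, hsum, hcard⟩
      refine ⟨hn1, g, hg, htube, hsum, ?_⟩
      have e1 : (Finset.range n).filter (fun l : ℕ =>
          ¬ LG0 D (shiftE (sb s0 b l + 32 * 64 ^ b, 16 ^ b * wi p b (g (sb s0 b l)) + p) ω')) =
          (Finset.range n).filter (fun l : ℕ =>
          ¬ LG0 D (shiftE (sb s0 b l + 32 * 64 ^ b, 16 ^ b * wi p b (g (sb s0 b l)) + p) ω)) := by
        refine Finset.filter_congr fun l hl => ?_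
        rw [Finset.mem_range] at hl
        have hl1 : ((l : ℤ) + 1) * 64 ^ (b + 1) ≤ n * 64 ^ (b + 1) :=
          mul_le_mul_of_nonneg_right (by omega) (by positivity)
        have hl0 : (0 : ℤ) ≤ l * 64 ^ (b + 1) := by positivity
        have e2 : ((l : ℤ) + 1) * 64 ^ (b + 1) = l * 64 ^ (b + 1) + 64 ^ (b + 1) := by ring
        rw [e2] at hl1
        have hdd := hdepz (sb s0 b l + 32 * 64 ^ b, 16 ^ b * wi p b (g (sb s0 b l)) + p) ω ω' (by
          rintro x ⟨h1, h2, h3⟩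
          apply hag
          simp only [Prod.fst_sub, Prod.snd_sub, sb] at h1 h2
          simp only [Prod.snd_sub] at h3
          have h4 := htube (sb s0 b l) (by unfold sb; linarith) (by unfold sb; linarith)
          have h5 := wi_bd p b (g (sb s0 b l))
          rw [abs_le] at h4
          rw [abs_lt] at h3
          refine ⟨by linarith, by linarith, ?_⟩
          rw [abs_le]
          constructor <;> linarith [h5.1, h5.2])
        simp only at hdd
        rw [hdd]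
      rw [e1]
      exact hcard
    intro ω ω' h
    exact propext ⟨key ω ω' h, key ω' ω fun x hx => (h x hx).symm⟩
  · -- finiteness
    refine ((Set.finite_Icc s0 (s0 + n * 64 ^ (b + 1))).prod (Set.finite_Icc
      (xc - (V + 16 ^ b + 2 * X)) (xc + (V + 16 ^ b + 2 * X)))).subset ?_
    rintro x ⟨h1, h2, h3⟩
    rw [abs_le] at h3
    exact ⟨⟨h1.le, h2⟩, ⟨by linarith, by linarith⟩⟩

end Pool.Agent.H84.NT5
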