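import Pool.Agent.H58.NT.RRA

/-!
# Crude regularity of the near geodesics
-/

open MeasureTheory ProbabilityTheory
open scoped ENNReal

namespace Pool.Agent.H84.NT5

open Pool.Agent.H99.NS Pool.Agent.H22.LPP Pool.Agent.H95.INS Pool.Agent.H76.ND Pool.Agent.H95.ND
open Pool.Agent.H84.NT hiding lv two_lv

namespace RGNaux

theorem near_shiftE {ω : Env} {a o e : Site} {c : ℝ} {g : ℤ → ℤ}
    (h : Near ω o e c g) :
    Near (shiftE a ω) (o - a) (e - a) c (fun r => g (r + a.1) - a.2) := by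
  obtain ⟨h1, h2⟩ := h
  refine ⟨?_, ?_⟩
  · have h3 := conn_shift (-a) h1
    simp only [Prod.fst_neg, Prod.snd_neg, sub_neg_eq_add, ← sub_eq_add_neg] at h3
    exact h3
  · rw [T_shift, wt_shift]
    simp only [Prod.fst_sub, sub_add_cancel]
    exact h2

theorem r64 (x y : ℝ) (k : ℕ) (hxy : 3 * x = y) : ((64 : ℝ) ^ k) ^ x = (4 : ℝ) ^ (k * y) := by
  have h1 : (64 : ℝ) = (4 : ℝ) ^ (3 : ℝ) := by norm_num
  rw [← Real.rpow_natCast, ← Real.rpow_mul (by norm_num), h1, ← Real.rpow_mul (by norm_num)]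
  congr 1
  rw [← hxy]
  ring

theorem r4 (k : ℕ) : (4 : ℝ) ^ k = (4 : ℝ) ^ (k : ℝ) := (Real.rpow_natCast _ _).symm

/-- Bound for all pairs of times from the bound for distant pairs. -/
theorem pairs {g : ℤ → ℤ} {B : ℝ} {N m : ℤ} (hm : 1 ≤ m) (hN : 3 * m ≤ N) (hB : 0 ≤ B)
    (h : ∀ s t : ℤ, 0 ≤ s → s < t → t ≤ N → m ≤ t - s →
      |((g t - g s : ℤ) : ℝ)| ≤ B * ((t - s : ℤ) : ℝ) ^ (2 / 3 : ℝ))
    (L : ℝ) (hL : 2 * (m : ℝ) ≤ L) (s t : ℤ) (h0 : 0 ≤ s) (hst : s ≤ t) (ht : t ≤ N)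
    (hd : ((t - s : ℤ) : ℝ) ≤ L) : |((g t - g s : ℤ) : ℝ)| ≤ 2 * (B * L ^ (2 / 3 : ℝ)) := by
  have hmR : (1 : ℝ) ≤ m := by exact_mod_cast hm
  have hBL : 0 ≤ B * L ^ (2 / 3 : ℝ) := mul_nonneg hB (Real.rpow_nonneg (by linarith) _)
  have mono : ∀ s' t' : ℤ, 0 ≤ s' → s' < t' → t' ≤ N → m ≤ t' - s' → ((t' - s' : ℤ) : ℝ) ≤ L →
      |((g t' - g s' : ℤ) : ℝ)| ≤ B * L ^ (2 / 3 : ℝ) := by
    intro s' t' h1 h2 h3 h4 h5
    refine (h s' t' h1 h2 h3 h4).trans (mul_le_mul_of_nonneg_left ?_ hB)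
    refine Real.rpow_le_rpow ?_ h5 (by norm_num)
    have : (0 : ℤ) ≤ t' - s' := by omega
    exact_mod_cast this
  by_cases hc : m ≤ t - s
  · have := mono s t h0 (by omega) ht hc hd
    linarith
  · push Not at hc
    by_cases hc2 : t + m ≤ N
    · have e1 := mono t (t + m) (by omega) (by omega) hc2 (by omega) (by push_cast; linarith)
      have e2 := mono s (t + m) h0 (by omega) hc2 (by omega) (by
        have : ((t + m - s : ℤ) : ℝ) ≤ 2 * m := by
          have : (t + m - s : ℤ) ≤ 2 * m := by omega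
          exact_mod_cast this
        linarith)
      have e3 : ((g t - g s : ℤ) : ℝ) =
          ((g (t + m) - g s : ℤ) : ℝ) - ((g (t + m) - g t : ℤ) : ℝ) := by
        push_cast
        ring
      rw [e3]
      refine (abs_sub _ _).trans ?_
      linarith
    · have e1 := mono (s - m) s (by omega) (by omega) (by omega) (by omega)
        (by push_cast; linarith)
      have e2 := mono (s - m) t (by omega) (by omega) ht (by omega) (by
        have : ((t - (s - m) : ℤ) : ℝ) ≤ 2 * m := by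
          have : (t - (s - m) : ℤ) ≤ 2 * m := by omega
          exact_mod_cast this
        linarith)
      have e3 : ((g t - g s : ℤ) : ℝ) =
          ((g t - g (s - m) : ℤ) : ℝ) - ((g s - g (s - m) : ℤ) : ℝ) := by
        push_cast
        ring
      rw [e3]
      refine (abs_sub _ _).trans ?_
      linarith

end RGNaux

open RGNaux RRAaux

theorem pf_RGN : T_RGN := by
  intro hCR hREG q hq0 hq1
  obtain ⟨A, hA, hREG⟩ := hREG q hq0 hq1
  obtain ⟨n₀, hREG⟩ := hREG 1 0 (1 / 2000) (1 / 2000) le_rfl le_rfl (by norm_num) (by norm_num)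
    (by norm_num) le_rfl
  obtain ⟨C, c₂, hC, hc₂, hCR⟩ := hCR q hq0 hq1 1 (1 / 2000) one_pos (by norm_num)
  obtain ⟨n1, hn1⟩ := exists_nat_ge (256 * A)
  refine ⟨C, c₂, hC, hc₂, max (max n₀ 2000) (1000 * n1), ?_⟩
  intro K hK
  have hK0 : n₀ ≤ K := (le_max_left _ _).trans ((le_max_left _ _).trans hK)
  have hK1 : 2000 ≤ K := (le_max_right _ _).trans ((le_max_left _ _).trans hK)
  have hK2 : 1000 * n1 ≤ K := (le_max_right _ _).trans hK
  -- the event
  have hsub : {ω | ¬ RGk K ω} ⊆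
      (shiftE (oK K)) ⁻¹' {ω | ¬ CR q 1 (1 / 2000) ((64 ^ K : ℕ) : ℝ) ω} := by
    intro ω hω hcr
    apply hω
    intro a hKa haK g hg
    have ha : 1 ≤ a := by omega
    have hlvK : lv K = 32 * 64 ^ (K - 1) := rfl
    have h2lv : (64 : ℤ) ^ K = 2 * lv K := by
      rw [hlvK]
      obtain ⟨m, rfl⟩ : ∃ m, K = m + 1 := ⟨K - 1, by omega⟩
      rw [Nat.add_sub_cancel, pow_succ]
      ring
    have hgs := near_shiftE (a := oK K) hg
    have eo : oK K - oK K = (0, 0) := sub_self _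
    have ee : eK K - oK K = ((64 : ℤ) ^ K, 0) := by
      rw [h2lv]
      change ((lv K - -lv K, 0 - 0) : Site) = (2 * lv K, 0)
      rw [sub_zero, show lv K - -lv K = 2 * lv K by ring]
    rw [eo, ee] at hgs
    set γ : ℤ → ℤ := fun r => g (r + (oK K).1) - (oK K).2 with hγ
    have hlow : (64 : ℝ) ^ K = ((64 ^ K : ℕ) : ℝ) := by push_cast; rfl
    have hN0 : n₀ ≤ 64 ^ K := hK0.trans (Nat.lt_pow_self (by norm_num)).le
    have hreach : Reach (0, 0) ((64 : ℤ) ^ K, 0) := by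
      unfold Reach
      simp only
      refine ⟨by rw [sub_zero, abs_zero, sub_zero]; positivity, ?_⟩
      rw [h2lv]
      exact ⟨lv K, by ring⟩
    have hREG' := hREG (64 ^ K) hN0 (shiftE (oK K) ω) hcr ((64 : ℤ) ^ K) 0
      (one_le_pow₀ (by norm_num)) (by push_cast; exact le_rfl)
      (by rw [Int.cast_zero, abs_zero]; positivity) hreach γ hgs.1 (4 ^ (K / 2000) * 4 ^ a)
      (by positivity) hgs.2
    have hKR : (2000 : ℝ) ≤ K := by exact_mod_cast hK1
    have haR : (K : ℝ) ≤ 40 * a := by exact_mod_cast hKa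
    have hdiv : ((K / 2000 : ℕ) : ℝ) ≤ K / 2000 := by
      have := @Nat.cast_div_le ℝ _ _ _ K 2000
      exact_mod_cast this
    obtain ⟨b, rfl⟩ : ∃ b, a = b + 1 := ⟨a - 1, by omega⟩
    have hbR : ((b + 1 : ℕ) : ℝ) = b + 1 := by push_cast; rfl
    rw [hbR] at haR
    -- distant pairs
    have hdist : ∀ s t : ℤ, 0 ≤ s → s < t → t ≤ (64 : ℤ) ^ K → (64 : ℤ) ^ b ≤ t - s →
        |((γ t - γ s : ℤ) : ℝ)| ≤
          (A * ((64 ^ K : ℕ) : ℝ) ^ (1 / 2000 : ℝ)) * ((t - s : ℤ) : ℝ) ^ (2 / 3 : ℝ) := by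
      intro s t h1 h2 h3 h4
      have h5 : ((64 : ℝ) ^ b) ≤ ((t - s : ℤ) : ℝ) := by exact_mod_cast h4
      refine (hREG' s t h1 h2 h3 ?_ ?_).1
      · refine le_trans ?_ h5
        rw [← hlow, r64 (13 * (1 / 2000)) (39 / 2000) K (by norm_num),
          show (64 : ℝ) ^ b = ((64 : ℝ) ^ b) ^ (1 : ℝ) by rw [Real.rpow_one],
          r64 1 3 b (by norm_num)]
        apply Real.rpow_le_rpow_of_exponent_le (by norm_num)
        linarith
      · have h6 : ((64 : ℝ) ^ b) ^ (1 / 3 : ℝ) ≤ ((t - s : ℤ) : ℝ) ^ (1 / 3 : ℝ) :=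
          Real.rpow_le_rpow (by positivity) h5 (by norm_num)
        refine le_trans ?_ (mul_le_mul_of_nonneg_left h6 (by positivity))
        rw [← hlow, r64 (1 / 2000) (3 / 2000) K (by norm_num), r64 (1 / 3) 1 b (by norm_num),
          r4, r4, ← Real.rpow_add (by norm_num), ← Real.rpow_add (by norm_num)]
        apply Real.rpow_le_rpow_of_exponent_le (by norm_num)
        push_cast
        linarith
    intro i hi s t hs hst ht hd
    have hN3 : 3 * (64 : ℤ) ^ b ≤ 64 ^ K := by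
      have h1 : (64 : ℤ) ^ (b + 1) ≤ 64 ^ K := pow_le_pow_right₀ (by norm_num) haK
      have h2 : (0 : ℤ) < 64 ^ b := by positivity
      rw [pow_succ] at h1
      linarith
    have hfst : (oK K).1 = -lv K := rfl
    have hsnd : (oK K).2 = 0 := rfl
    have h2m : 2 * (((64 : ℤ) ^ b : ℤ) : ℝ) ≤ (64 : ℝ) ^ (i + 1) := by
      push_cast
      have h1 : (64 : ℝ) ^ (b + 1) ≤ 64 ^ (i + 1) :=
        pow_le_pow_right₀ (by norm_num) (by omega)
      have h2 : (0 : ℝ) < 64 ^ b := by positivity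
      rw [pow_succ] at h1
      linarith
    have hp := pairs (g := γ) (one_le_pow₀ (by norm_num)) hN3 (by positivity) hdist
      ((64 : ℝ) ^ (i + 1)) h2m (s + lv K) (t + lv K) (by omega) (by omega) (by omega) (by
        have : t + lv K - (s + lv K) ≤ 64 ^ (i + 1) := by omega
        exact_mod_cast this)
    have e1 : γ (t + lv K) - γ (s + lv K) = g t - g s := by
      simp only [hγ, hfst, hsnd, add_neg_cancel_right, sub_zero]
    rw [e1] at hp
    have hXf : 64 * (A * ((64 ^ K : ℕ) : ℝ) ^ (1 / 2000 : ℝ)) ≤ (Xf K : ℝ) := by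
      rw [← hlow, r64 (1 / 2000) (3 / 2000) K (by norm_num)]
      have h1 : ((Xf K : ℤ) : ℝ) = (4 : ℝ) ^ ((K / 400 : ℕ) : ℝ) := by
        unfold Xf
        push_cast
        rw [← Real.rpow_natCast]
      rw [h1]
      have h2 : (K : ℝ) / 400 - 1 ≤ ((K / 400 : ℕ) : ℝ) := by
        have h3 : K < 400 * (K / 400) + 400 := by omega
        have h4 : (K : ℝ) < 400 * ((K / 400 : ℕ) : ℝ) + 400 := by exact_mod_cast h3
        linarith
      have h3 : (4 : ℝ) ^ ((K : ℝ) * (3 / 2000)) * ((4 : ℝ) ^ ((K : ℝ) / 1000) * 4⁻¹) ≤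
          (4 : ℝ) ^ ((K / 400 : ℕ) : ℝ) := by
        rw [show (4 : ℝ)⁻¹ = (4 : ℝ) ^ (-1 : ℝ) by rw [Real.rpow_neg_one],
          ← Real.rpow_add (by norm_num), ← Real.rpow_add (by norm_num)]
        apply Real.rpow_le_rpow_of_exponent_le (by norm_num)
        linarith
      have h4 : 256 * A ≤ (4 : ℝ) ^ ((K : ℝ) / 1000) := by
        have h5 : (n1 : ℝ) ≤ (K : ℝ) / 1000 := by
          have : (1000 * n1 : ℝ) ≤ K := by exact_mod_cast hK2
          linarith
        have h6 : (n1 : ℝ) ≤ (4 : ℝ) ^ (n1 : ℝ) := by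
          rw [Real.rpow_natCast]
          exact_mod_cast (Nat.lt_pow_self (by norm_num : 1 < 4)).le
        have h7 : (4 : ℝ) ^ (n1 : ℝ) ≤ (4 : ℝ) ^ ((K : ℝ) / 1000) :=
          Real.rpow_le_rpow_of_exponent_le (by norm_num) h5
        linarith
      have h5 : (0 : ℝ) < (4 : ℝ) ^ ((K : ℝ) * (3 / 2000)) := by positivity
      refine le_trans ?_ h3
      have h8 := mul_le_mul_of_nonneg_left h4 h5.le
      linarith
    have h16 : ((64 : ℝ) ^ (i + 1)) ^ (2 / 3 : ℝ) = 16 * 16 ^ i := by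
      rw [r64 (2 / 3) 2 (i + 1) (by norm_num)]
      have h1 : (4 : ℝ) ^ (((i + 1 : ℕ) : ℝ) * 2) = (4 : ℝ) ^ (((i + 1) * 2 : ℕ) : ℝ) := by
        push_cast
        rfl
      rw [h1, Real.rpow_natCast, mul_comm (i + 1) 2, pow_mul, pow_succ]
      norm_num
      ring
    rw [h16] at hp
    have h16i : (0 : ℝ) < 16 ^ i := by positivity
    have hfin : ((2 * |g t - g s| : ℤ) : ℝ) ≤ ((Xf K * 16 ^ i : ℤ) : ℝ) := by
      push_cast
      push_cast at hp
      have h9 := mul_le_mul_of_nonneg_right hXf h16i.le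
      push_cast at h9
      linarith
    exact_mod_cast hfin
  -- the probability
  refine (measure_mono hsub).trans ?_
  have hmp := mp_shiftE q (oK K)
  have e2 := Measure.le_map_apply (μ := PE q) hmp.measurable.aemeasurable
    {ω | ¬ CR q 1 (1 / 2000) ((64 ^ K : ℕ) : ℝ) ω}
  rw [hmp.map_eq] at e2
  refine e2.trans ?_
  have h3 := hCR (64 ^ K) (Nat.one_le_pow _ _ (by norm_num))
  rw [Measure.real, ← ENNReal.le_ofReal_iff_toReal_le (measure_ne_top _ _) (by positivity)] at h3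
  refine h3.trans (ENNReal.ofReal_le_ofReal (mul_le_mul_of_nonneg_left ?_ hC.le))
  rw [Real.exp_le_exp, neg_le_neg_iff]
  have h4 : Real.exp (c₂ * K) = (Real.exp K) ^ c₂ := by
    rw [← Real.exp_mul]
    congr 1
    ring
  rw [h4]
  apply Real.rpow_le_rpow (Real.exp_pos _).le _ hc₂.le
  push_cast
  have h5 : Real.exp 1 ≤ 64 := by
    have := Real.exp_one_lt_d9
    linarith
  calc Real.exp K = Real.exp 1 ^ K := by rw [← Real.exp_nat_mul, mul_one]
    _ ≤ 64 ^ K := pow_le_pow_left₀ (Real.exp_pos _).le h5 K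

end Pool.Agent.H84.NT5
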