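import Pool.Agent.H84.NT.Targets5

/-!
# The global condition at the large scale
-/

open MeasureTheory ProbabilityTheory
open scoped ENNReal

namespace Pool.Agent.H84.NT5

open Pool.Agent.H99.NS Pool.Agent.H22.LPP Pool.Agent.H95.INS Pool.Agent.H76.ND Pool.Agent.H95.ND
open Pool.Agent.H84.NT hiding lv two_lv

namespace RRAaux

theorem near_unshift {ω : Env} {a o e : Site} {c : ℝ} {g : ℤ → ℤ}
    (h : Near (shiftE a ω) (o - a) (e - a) c g) :
    Near ω o e c (fun r => g (r - a.1) + a.2) := by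
  obtain ⟨h1, h2⟩ := h
  have h3 := conn_shift a h1
  rw [sub_add_cancel, sub_add_cancel] at h3
  refine ⟨h3, ?_⟩
  rw [T_shift, wt_shift, sub_add_cancel, sub_add_cancel, Prod.fst_sub, Prod.fst_sub,
    sub_add_cancel, sub_add_cancel] at h2
  exact h2

theorem near_mono {ω : Env} {o e : Site} {c c' : ℝ} {g : ℤ → ℤ} (h : Near ω o e c g)
    (hc : c ≤ c') : Near ω o e c' g := ⟨h.1, by linarith [h.2]⟩

end RRAaux

open RRAaux

theorem pf_RRA : T_RRA := by
  intro q K a A X j y κ κ' H Y ω hKa ha haK hR hj hH hX g hg hr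
  obtain ⟨r, hr1, hr2, hr3⟩ := hr
  have hP : (0 : ℤ) < 64 ^ (a - 1) := by positivity
  have hn : (4 * (dat q a A κ κ' H Y X).n : ℤ) = lv a := by
    change (4 * (8 * 64 ^ (a - 1)) : ℤ) = 32 * 64 ^ (a - 1)
    ring
  rw [hn] at hr1 hr2 ⊢
  have hlva : lv a = 32 * 64 ^ (a - 1) := rfl
  have hlvK : lv K = 32 * 64 ^ (K - 1) := rfl
  have hpow : (64 : ℤ) * 64 ^ (a - 1) ≤ 64 ^ (K - 1) := by
    rw [← pow_succ']
    exact pow_le_pow_right₀ (by norm_num) (by omega)
  have h64 : (64 : ℤ) ^ (a + 1) = 64 * 64 * 64 ^ (a - 1) := by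
    obtain ⟨m, rfl⟩ : ∃ m, a = m + 1 := ⟨a - 1, by omega⟩
    rw [Nat.add_sub_cancel]
    ring
  rw [abs_le] at hj
  have h1 := near_unshift hg
  have h2 : (14 * (dat q a A κ κ' H Y X).H * (dat q a A κ κ' H Y X).f / 1000 : ℝ) ≤
      4 ^ (K / 2000) * 4 ^ a := by
    change (14 * H * 4 ^ a / 1000 : ℝ) ≤ _
    have : (14 * H * 4 ^ a / 1000 : ℝ) = 14 * H / 1000 * 4 ^ a := by ring
    rw [this]
    exact mul_le_mul_of_nonneg_right hH (by positivity)
  have h3 := hR a hKa (by omega) _ (near_mono h1 h2) a le_rfl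
  have hr4 : |g r| ≤ A * 16 ^ a := hr3.le
  have key : ∀ s : ℤ, (s = -lv a ∨ s = lv a) → |g s| ≤ X := by
    intro s hs
    have hb : 2 * |g s - g r| ≤ Xf K * 16 ^ a := by
      rcases le_total s r with hsr | hsr
      · have h4 := h3 (j + s) (j + r) (by rcases hs with h | h <;> omega) (by omega)
          (by rcases hs with h | h <;> omega) (by rcases hs with h | h <;> omega)
        simp only [add_sub_cancel_left, add_sub_add_right_eq_sub] at h4
        rw [abs_sub_comm]
        exact h4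
      · have h4 := h3 (j + r) (j + s) (by rcases hs with h | h <;> omega) (by omega)
          (by rcases hs with h | h <;> omega) (by rcases hs with h | h <;> omega)
        simp only [add_sub_cancel_left, add_sub_add_right_eq_sub] at h4
        exact h4
    have h5 : |g s| ≤ |g s - g r| + |g r| := by
      have := abs_add_le (g s - g r) (g r)
      rwa [sub_add_cancel] at this
    linarith
  exact ⟨key _ (Or.inl rfl), key _ (Or.inr rfl)⟩

end Pool.Agent.H84.NT5
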